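import Pool.Agent.H33.HH.TC
import Pool.Agent.H57.HH.IDF

/-!
# CO1: the sum over n with the coefficients at the primes of a (MP_347b49_nt)
-/

set_option autoImplicit false

open NumberField Complex Filter Topology MeasureTheory
open scoped ContDiff nonZeroDivisors

namespace Pool.Agent.H45.HH

open Pool.Agent.H33.HH Pool.Agent.H28.RC Pool.Agent.H37.CV Pool.Agent.H57.HH Pool.Agent.H3.CV

/-! ### alternating sums -/

section alt
variable {α : Type} [DecidableEq α]

theorem co_insert (q : α) (s : Finset α) (hq : q ∉ s) (h : Finset α → ℝ) :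
    ∑ t ∈ (insert q s).powerset, (-1 : ℝ) ^ (insert q s \ t).card * h t =
      ∑ t ∈ s.powerset, (-1 : ℝ) ^ (s \ t).card * (h (insert q t) - h t) := by
  rw [Finset.sum_powerset_insert hq, ← Finset.sum_add_distrib]
  refine Finset.sum_congr rfl fun t ht => ?_
  have hts : t ⊆ s := Finset.mem_powerset.1 ht
  have hqt : q ∉ t := fun k => hq (hts k)
  have h1 : insert q s \ t = insert q (s \ t) := Finset.insert_sdiff_of_notMem s hqt
  have h2 : insert q s \ insert q t = s \ t := by
    ext x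
    simp only [Finset.mem_sdiff, Finset.mem_insert]
    constructor
    · rintro ⟨h3 | h3, h4⟩
      · exact (h4 (Or.inl h3)).elim
      · exact ⟨h3, fun k => h4 (Or.inr k)⟩
    · rintro ⟨h3, h4⟩
      refine ⟨Or.inr h3, ?_⟩
      rintro (h5 | h5)
      · exact hq (h5 ▸ h3)
      · exact h4 h5
  have h3 : q ∉ s \ t := fun k => hq (Finset.mem_sdiff.1 k).1
  rw [h1, h2, Finset.card_insert_of_notMem h3, pow_succ]
  ring

theorem co_one (s : Finset α) (h : s ≠ ∅) :
    ∑ t ∈ s.powerset, (-1 : ℝ) ^ (s \ t).card * (1 : ℝ) = 0 := by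
  obtain ⟨q, hq⟩ := Finset.nonempty_iff_ne_empty.2 h
  have h1 : insert q (s.erase q) = s := Finset.insert_erase hq
  rw [← h1, co_insert q (s.erase q) (Finset.notMem_erase q s)]
  exact Finset.sum_eq_zero fun t _ => by ring

theorem co_log0 (a : α → ℝ) (Λ : ℝ) :
    ∑ t ∈ (∅ : Finset α).powerset, (-1 : ℝ) ^ ((∅ : Finset α) \ t).card * (Λ - ∑ p ∈ t, a p) = Λ := by
  simp

theorem co_log (a : α → ℝ) (Λ : ℝ) (q : α) (s : Finset α) (hq : q ∉ s) :
    ∑ t ∈ (insert q s).powerset, (-1 : ℝ) ^ (insert q s \ t).card * (Λ - ∑ p ∈ t, a p) =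
      -a q * ∑ t ∈ s.powerset, (-1 : ℝ) ^ (s \ t).card * (1 : ℝ) := by
  rw [co_insert q s hq, Finset.mul_sum]
  refine Finset.sum_congr rfl fun t ht => ?_
  have hqt : q ∉ t := fun k => hq (Finset.mem_powerset.1 ht k)
  rw [Finset.sum_insert hqt]
  ring

theorem co_log1 (a : α → ℝ) (Λ : ℝ) (s : Finset α) (hs : s.card = 1) :
    ∑ t ∈ s.powerset, (-1 : ℝ) ^ (s \ t).card * (Λ - ∑ p ∈ t, a p) = -∑ p ∈ s, a p := by
  obtain ⟨q, rfl⟩ := Finset.card_eq_one.1 hs
  have h1 : ({q} : Finset α) = insert q ∅ := rfl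
  rw [h1, co_log a Λ q ∅ (Finset.notMem_empty q)]
  simp

theorem co_log2 (a : α → ℝ) (Λ : ℝ) (s : Finset α) (h0 : s ≠ ∅) (hs : s.card ≠ 1) :
    ∑ t ∈ s.powerset, (-1 : ℝ) ^ (s \ t).card * (Λ - ∑ p ∈ t, a p) = 0 := by
  obtain ⟨q, hq⟩ := Finset.nonempty_iff_ne_empty.2 h0
  have h1 : insert q (s.erase q) = s := Finset.insert_erase hq
  have h2 : s.erase q ≠ ∅ := by
    intro k
    apply hs
    rw [← h1, k]
    rfl
  rw [← h1, co_log a Λ q (s.erase q) (Finset.notMem_erase q s), co_one _ h2, mul_zero]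

end alt

section
variable {K : Type} [Field K] [NumberField K]

open scoped Classical in
theorem co_ha (R S' : Finset (PrI K)) (n : Ideal (𝓞 K)) :
    ha R (idS S' * n) = fS np (R ∩ S') * ∑ t ∈ (R \ S').powerset,
      (-1 : ℝ) ^ ((R \ S') \ t).card * (if idS t ∣ n then nS np t else 0) := by
  unfold ha
  have h0 : R = (R ∩ S') ∪ (R \ S') := by
    rw [Finset.union_comm]
    exact (Finset.sdiff_union_inter R S').symm
  have hd : Disjoint (R ∩ S') (R \ S') := Finset.disjoint_sdiff_inter R S' |>.symm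
  have h1 : ∀ p ∈ R ∩ S', ((if idS S' * n ≤ p.1 then np p else 0) - 1 : ℝ) = np p - 1 := by
    intro p hp
    have h2 : idS S' * n ≤ p.1 := p.2.1.mul_le.2 (Or.inl (idS_le_mem (Finset.mem_inter.1 hp).2))
    rw [if_pos h2]
  have h2 : ∀ p ∈ R \ S', ((if idS S' * n ≤ p.1 then np p else 0) - 1 : ℝ) =
      (if n ≤ p.1 then np p else 0) + (-1) := by
    intro p hp
    have h3 : (idS S' * n ≤ p.1) ↔ n ≤ p.1 := by
      rw [p.2.1.mul_le]
      constructor
      · rintro (h4 | h4)
        · exact ((Finset.mem_sdiff.1 hp).2 (idS_le h4)).elim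
        · exact h4
      · exact Or.inr
    by_cases h4 : n ≤ p.1
    · rw [if_pos (h3.2 h4), if_pos h4]
      ring
    · rw [if_neg (fun k => h4 (h3.1 k)), if_neg h4]
      ring
  have h3 : ∏ p ∈ R, ((if idS S' * n ≤ p.1 then np p else 0) - 1 : ℝ) =
      (∏ p ∈ R ∩ S', ((if idS S' * n ≤ p.1 then np p else 0) - 1 : ℝ)) *
        ∏ p ∈ R \ S', ((if idS S' * n ≤ p.1 then np p else 0) - 1 : ℝ) := by
    rw [← Finset.prod_union hd, ← h0]
  rw [h3, Finset.prod_congr rfl h1, Finset.prod_congr rfl h2, Finset.prod_add]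
  unfold fS
  refine congrArg _ (Finset.sum_congr rfl fun t _ => ?_)
  rw [Finset.prod_const, mul_comm]
  refine congrArg _ ?_
  by_cases h4 : ∀ p ∈ t, n ≤ p.1
  · rw [if_pos (idS_dvd h4)]
    unfold nS
    exact Finset.prod_congr rfl fun p hp => if_pos (h4 p hp)
  · rw [if_neg]
    · push Not at h4
      obtain ⟨p, hp, hn⟩ := h4
      exact Finset.prod_eq_zero hp (if_neg hn)
    · intro k
      exact h4 fun p hp => (Ideal.dvd_iff_le.1 k).trans (idS_le_mem hp)

/-- multiplication by a fixed ideal -/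
noncomputable def mu (J : Ideal (𝓞 K)) (hJ : J ≠ ⊥) (n : NI K) : NI K :=
  ⟨J * n.1, mul_ne_zero hJ n.2⟩

theorem mu_inj (J : Ideal (𝓞 K)) (hJ : J ≠ ⊥) : Function.Injective (mu J hJ) := by
  intro a b h
  have h1 : J * a.1 = J * b.1 := congrArg Subtype.val h
  exact Subtype.ext (mul_left_cancel₀ hJ h1)

theorem cp_mul {P : ℝ} {t : Finset (PrI K)} (ht : ∀ p ∈ t, P < np p) (n : Ideal (𝓞 K)) :
    Cp P (idS t * n) ↔ Cp P n := by
  unfold Cp
  constructor
  · intro h p hp
    exact h p (p.2.1.mul_le.2 (Or.inr hp))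
  · intro h p hp
    rcases p.2.1.mul_le.1 hp with h1 | h1
    · exact ht p (idS_le h1)
    · exact h p h1

open scoped Classical in
theorem co_term {P : ℝ} {t : Finset (PrI K)} (ht : ∀ p ∈ t, P < np p) (f : ℝ → ℝ)
    (hs : Summable fun I : NI K => |f (nS np t * nm I.1) / nm I.1|) :
    Summable (fun n : NI K => if Cp P n.1 then
        (if idS t ∣ n.1 then nS np t else 0) * (f (nm n.1) / nm n.1) else 0) ∧
      ∑' n : NI K, (if Cp P n.1 then
        (if idS t ∣ n.1 then nS np t else 0) * (f (nm n.1) / nm n.1) else 0) =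
      sumC (K := K) P (fun n => f (nS np t * nm n) / nm n) := by
  set u : NI K → ℝ := fun n => if Cp P n.1 then
        (if idS t ∣ n.1 then nS np t else 0) * (f (nm n.1) / nm n.1) else 0 with hu
  have hJ : idS t ≠ ⊥ := idS_ne t
  have hinj := mu_inj (idS t) hJ
  have hcomp : u ∘ mu (idS t) hJ = fun n : NI K =>
      if Cp P n.1 then f (nS np t * nm n.1) / nm n.1 else 0 := by
    funext n
    show (if Cp P (idS t * n.1) then (if idS t ∣ idS t * n.1 then nS np t else 0) *
      (f (nm (idS t * n.1)) / nm (idS t * n.1)) else 0) = _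
    by_cases hc : Cp P n.1
    · rw [if_pos ((cp_mul ht n.1).2 hc), if_pos hc, if_pos (dvd_mul_right _ _), nm_mul, nm_idS]
      have h0 : nS np t ≠ 0 := by
        have := one_le_nS t
        linarith
      rw [← div_div, ← mul_div_assoc, mul_div_cancel₀ _ h0]
    · rw [if_neg (fun k => hc ((cp_mul ht n.1).1 k)), if_neg hc]
  have hr : ∀ n, n ∉ Set.range (mu (idS t) hJ) → u n = 0 := by
    intro n hn
    have h1 : ¬ idS t ∣ n.1 := by
      rintro ⟨m, hm⟩
      have hm0 : m ≠ ⊥ := by
        rintro rfl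
        exact n.2 (by rw [hm]; exact mul_zero _)
      exact hn ⟨⟨m, hm0⟩, Subtype.ext hm.symm⟩
    rw [hu]
    show (if Cp P n.1 then (if idS t ∣ n.1 then nS np t else 0) * (f (nm n.1) / nm n.1) else 0) = 0
    rw [if_neg h1, zero_mul, ite_self]
  have hs1 : Summable (u ∘ mu (idS t) hJ) := by
    rw [hcomp]
    refine Summable.of_norm_bounded hs fun n => ?_
    by_cases hc : Cp P n.1
    · rw [if_pos hc, Real.norm_eq_abs]
    · rw [if_neg hc, norm_zero]
      exact abs_nonneg _
  refine ⟨(hinj.summable_iff hr).1 hs1, ?_⟩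
  have h2 : ∑' n, u (mu (idS t) hJ n) = ∑' n, u n := by
    refine hinj.tsum_eq ?_
    intro n hn
    by_contra hk
    exact hn (hr n hk)
  rw [← h2]
  exact congrArg tsum hcomp

end

open scoped Classical in
/-- CO1 -/
theorem pf_CO1 (h1 : T_NSM) (h2 : T_SLS) : T_CO1 := by
  intro K _ _ _ P
  obtain ⟨g, C, hC, hN⟩ := h1 K P
  refine ⟨g, C, hC, ?_⟩
  intro f f' T A y hA hy hsl S hS S' hS' R hR hT
  set s := R \ S' with hs
  have hT1 : 1 ≤ T := le_trans (one_le_nS s) hT
  have hT0 : 0 < T := by linarith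
  have hsub : ∀ t ∈ s.powerset, t ⊆ s := fun t ht => Finset.mem_powerset.1 ht
  have hpS : ∀ p ∈ s, P < np p := by
    intro p hp
    have hp1 : p ∈ R := (Finset.mem_sdiff.1 hp).1
    exact ((mem_DP.1 hS).1 p (Finset.mem_powerset.1 hR hp1)).1
  have hle : ∀ t ∈ s.powerset, nS np t ≤ nS np s := by
    intro t ht
    have h3 : nS np s = nS np (s \ t) * nS np t := by
      unfold nS
      exact (Finset.prod_sdiff (hsub t ht)).symm
    rw [h3]
    have h4 := one_le_nS (s \ t)
    have h5 := one_le_nS t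
    nlinarith
  have hpos : ∀ t : Finset (PrI K), 0 < nS np t := fun t => lt_of_lt_of_le one_pos (one_le_nS t)
  have hNt : ∀ t ∈ s.powerset, Summable (fun I : NI K => |f (nS np t * nm I.1) / nm I.1|) ∧
      |sumC (K := K) P (fun n => f (nS np t * nm n) / nm n) -
        rk K P * ((Real.log T + g + Lg (fun u => f (T * u))) - ∑ p ∈ t, Real.log (np p))| ≤
        C * A * (T / nS np s) ^ (-(1 / 4) : ℝ) := by
    intro t ht
    have h3 : 1 ≤ T / nS np t := by
      rw [one_le_div (hpos t)]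
      exact (hle t ht).trans hT
    obtain ⟨h4, h5⟩ := hN _ _ (T / nS np t) A h3 hA (h2 f f' T A (nS np t) hT0 (hpos t) hA hsl)
    refine ⟨h4, ?_⟩
    have h6 : (fun u => f (nS np t * (T / nS np t * u))) = fun u => f (T * u) := by
      funext u
      rw [← mul_assoc, mul_div_cancel₀ _ (hpos t).ne']
    have h7 : Real.log (T / nS np t) = Real.log T - ∑ p ∈ t, Real.log (np p) := by
      rw [Real.log_div hT0.ne' (hpos t).ne']
      unfold nS
      rw [Real.log_prod fun p _ => by
        have := np_two p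
        linarith]
    simp only [h6] at h5
    rw [h7] at h5
    have h8 : rk K P * (Real.log T - ∑ p ∈ t, Real.log (np p) + g + Lg (fun u => f (T * u))) =
        rk K P * ((Real.log T + g + Lg (fun u => f (T * u))) - ∑ p ∈ t, Real.log (np p)) := by
      ring
    rw [h8] at h5
    refine h5.trans ?_
    refine mul_le_mul_of_nonneg_left ?_ (mul_nonneg hC hA)
    refine Real.rpow_le_rpow_of_nonpos (div_pos hT0 (hpos s)) ?_ (by norm_num)
    exact div_le_div_of_nonneg_left hT0.le (hpos t) (hle t ht)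
  -- the expansion
  have hexp : sumC (K := K) P (fun n => ha R (idS S' * n) * (f (nm n) / nm n)) =
      fS np (R ∩ S') * ∑ t ∈ s.powerset, (-1 : ℝ) ^ (s \ t).card *
        sumC (K := K) P (fun n => f (nS np t * nm n) / nm n) := by
    unfold sumC
    have h3 : (fun I : NI K => if Cp P I.1 then ha R (idS S' * I.1) * (f (nm I.1) / nm I.1) else 0) =
        fun I : NI K => fS np (R ∩ S') * ∑ t ∈ s.powerset, (-1 : ℝ) ^ (s \ t).card *
          (if Cp P I.1 then (if idS t ∣ I.1 then nS np t else 0) * (f (nm I.1) / nm I.1) else 0) := by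
      funext I
      by_cases hc : Cp P I.1
      · simp only [if_pos hc]
        rw [co_ha, mul_assoc, Finset.sum_mul]
        refine congrArg _ (Finset.sum_congr rfl fun t _ => ?_)
        ring
      · simp only [if_neg hc, mul_zero, Finset.sum_const_zero]
    rw [h3, tsum_mul_left, Summable.tsum_finsetSum]
    · refine congrArg _ (Finset.sum_congr rfl fun t ht => ?_)
      rw [tsum_mul_left, (co_term (fun p hp => hpS p (hsub t ht hp)) f (hNt t ht).1).2]
      rfl
    · intro t ht
      exact (co_term (fun p hp => hpS p (hsub t ht hp)) f (hNt t ht).1).1.mul_left _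
  have hRS : (R ⊆ S') ↔ s = ∅ := by
    rw [hs]
    exact Finset.sdiff_eq_empty_iff_subset.symm
  have hval : (if R ⊆ S' then Real.log T + g + Lg (fun u => f (T * u)) else
      if s.card = 1 then -Real.log (nS np s) else 0) =
      ∑ t ∈ s.powerset, (-1 : ℝ) ^ (s \ t).card *
        ((Real.log T + g + Lg (fun u => f (T * u))) - ∑ p ∈ t, Real.log (np p)) := by
    have h4 : Real.log (nS np s) = ∑ p ∈ s, Real.log (np p) := by
      unfold nS
      rw [Real.log_prod fun p _ => by
        have := np_two p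
        linarith]
    rw [h4]
    by_cases h5 : R ⊆ S'
    · rw [if_pos h5, hRS.1 h5]
      exact (co_log0 _ _).symm
    · rw [if_neg h5]
      by_cases h6 : s.card = 1
      · rw [if_pos h6]
        exact (co_log1 _ _ s h6).symm
      · rw [if_neg h6]
        exact (co_log2 _ _ s (fun k => h5 (hRS.2 k)) h6).symm
  have hfS : 0 ≤ fS np (R ∩ S') := by
    unfold fS
    refine Finset.prod_nonneg fun p _ => ?_
    have := np_two p
    linarith
  rw [hexp, hval]
  have h9 : fS np (R ∩ S') * ∑ t ∈ s.powerset, (-1 : ℝ) ^ (s \ t).card *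
        sumC (K := K) P (fun n => f (nS np t * nm n) / nm n) -
      rk K P * fS np (R ∩ S') * ∑ t ∈ s.powerset, (-1 : ℝ) ^ (s \ t).card *
        ((Real.log T + g + Lg (fun u => f (T * u))) - ∑ p ∈ t, Real.log (np p)) =
      fS np (R ∩ S') * ∑ t ∈ s.powerset, (-1 : ℝ) ^ (s \ t).card *
        (sumC (K := K) P (fun n => f (nS np t * nm n) / nm n) -
          rk K P * ((Real.log T + g + Lg (fun u => f (T * u))) - ∑ p ∈ t, Real.log (np p))) := by
    rw [mul_comm (rk K P), mul_assoc, ← mul_sub, Finset.mul_sum, ← Finset.sum_sub_distrib]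
    refine congrArg _ (Finset.sum_congr rfl fun t _ => ?_)
    ring
  rw [h9, abs_mul, abs_of_nonneg hfS]
  have h10 : |∑ t ∈ s.powerset, (-1 : ℝ) ^ (s \ t).card *
        (sumC (K := K) P (fun n => f (nS np t * nm n) / nm n) -
          rk K P * ((Real.log T + g + Lg (fun u => f (T * u))) - ∑ p ∈ t, Real.log (np p)))| ≤
      2 ^ R.card * (C * A * (T / nS np s) ^ (-(1 / 4) : ℝ)) := by
    refine (Finset.abs_sum_le_sum_abs _ _).trans ?_
    refine (Finset.sum_le_card_nsmul _ _ (C * A * (T / nS np s) ^ (-(1 / 4) : ℝ)) fun t ht => ?_).trans ?_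
    · rw [abs_mul, abs_pow, abs_neg, abs_one, one_pow, one_mul]
      exact (hNt t ht).2
    · rw [Finset.card_powerset, nsmul_eq_mul]
      refine mul_le_mul_of_nonneg_right ?_ ?_
      · rw [Nat.cast_pow, Nat.cast_ofNat]
        exact pow_le_pow_right₀ (by norm_num) (Finset.card_le_card Finset.sdiff_subset)
      · exact mul_nonneg (mul_nonneg hC hA) (Real.rpow_nonneg (div_pos hT0 (hpos s)).le _)
  calc fS np (R ∩ S') * |∑ t ∈ s.powerset, (-1 : ℝ) ^ (s \ t).card *
        (sumC (K := K) P (fun n => f (nS np t * nm n) / nm n) -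
          rk K P * ((Real.log T + g + Lg (fun u => f (T * u))) - ∑ p ∈ t, Real.log (np p)))|
      ≤ fS np (R ∩ S') * (2 ^ R.card * (C * A * (T / nS np s) ^ (-(1 / 4) : ℝ))) :=
        mul_le_mul_of_nonneg_left h10 hfS
    _ = C * A * 2 ^ R.card * fS np (R ∩ S') * (T / nS np s) ^ (-(1 / 4) : ℝ) := by ring

end Pool.Agent.H45.HH
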